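import Pool.Agent.RegJ.ArovConv

open Pool.Agent.RegJ

namespace Pool.Agent.Results.MP_00ee12_an.EtaLeftRegular

/-- **The canonical Schur functions `η_W` of left regular `j_{pq}`-inner functions.**

(1) For every `W ∈ 𝒰(p,q)` there is a scalar inner function `β` such that `W · diag (β I_p, I_q)`
is left regular, and this function has the same `η`.

(2) A `p × q` function `f` is `η_W` for some left regular `W ∈ 𝒰(p,q)` if and only if it is a
Schur function, it has a pseudocontinuation and `log det (I - f f*)` is integrable on the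
circle. -/
theorem result (p q : ℕ) :
    (∀ W : ℂ → Matrix (Fin p ⊕ Fin q) (Fin p ⊕ Fin q) ℂ, JInner W →
      ∃ β : ℂ → ℂ, Inner β ∧
        LeftRegular (fun z => W z * diagFactor (Fin p) (Fin q) (β z)) ∧
        ∀ f, IsEta W f → IsEta (fun z => W z * diagFactor (Fin p) (Fin q) (β z)) f) ∧
    ∀ f : ℂ → Matrix (Fin p) (Fin q) ℂ,
      (∃ W : ℂ → Matrix (Fin p ⊕ Fin q) (Fin p ⊕ Fin q) ℂ, LeftRegular W ∧ IsEta W f) ↔
        IsSchur f ∧ HasPseudocontinuation f ∧ LogDetIntegrable f := by
  refine ⟨fun W hW => ?_, fun f => ?_⟩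
  · obtain ⟨β, hβ, hβ0, hreg⟩ := main_reg hW
    exact ⟨β, hβ, hreg, fun f hf => isEta_mul_dg hβ hβ0 hf⟩
  · rw [eta_iff f]
    constructor
    · rintro ⟨W, hW, hf⟩
      exact arov_nec hW hf
    · rintro ⟨h1, h2, h3⟩
      exact arov_exists h1 h2 h3

end Pool.Agent.Results.MP_00ee12_an.EtaLeftRegular
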