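import Pool.Agent.RegK.Final
import Pool.Agent.RegK.Last
import Pool.Agent.H2RJ.Scalar

open Pool.Agent.RegJ Pool.Agent.RegK
open MeasureTheory Matrix
open scoped ComplexOrder

namespace Pool.Agent.Results.MP_00ee12_an.KappaLeftRegular

/-- **The canonical Schur functions `κ_W = W₂₂⁻¹ W₂₁` of left regular `j_{pq}`-inner functions.**

(1) A `q × p` function `g` is `κ_W` for some left regular `W ∈ 𝒰(p,q)` if and only if it is a
Schur function, it has a pseudocontinuation, `log det (I - g g*)` is integrable on the circle, and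
every A-singular `S` for which `(g' S₁₂ + S₂₂) g = g' S₁₁ + S₂₁` holds with some Schur function
`g'` is constant.

(2) Let `W ∈ 𝒰(p,q)` and `g = κ_W`. The A-singular right divisors of `W` are the A-singular `S` for
which such a `g'` exists. A function `W' ∈ 𝒰(p,q)` with `κ_{W'} = g` is left regular if and only if
`W` is. There is a scalar inner `β` such that `W · diag (β I_p, I_q)` is left regular; its `κ` is
`β g`.

(3) The function `κ_S` of a non-constant A-singular `S` is not `κ_W` for any left regular `W`;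
for instance `z ↦ ((1 + z)/2) E_{ki}` is `κ_S` for an A-singular `S`, and it is not `κ_W` for
any left regular `W`.

(4) A function `g` that is analytic at every point of the closed disc (for instance a rational
Schur function) is `κ_W` for some left regular `W` if and only if it has a pseudocontinuation and
`‖g(ζ)‖ < 1` for `|ζ| = 1`.

(5) Let `x`, `y` be unit vectors and `γ = y* g x`. If there is a non-constant holomorphic `s` with
`Re s = 0` a.e. on the circle and `0 ≤ 2 Re s ≤ Re (1 + γ)/(1 - γ)` in the disc, then `g` is not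
`κ_W` for any left regular `W`. In other words: if `g = κ_W` and `W` is left regular, then all
Aleksandrov-Clark measures of the scalar Schur functions `y* g x` are absolutely continuous. -/
theorem result (p q : ℕ) :
    (∀ g : ℂ → Matrix (Fin q) (Fin p) ℂ,
      (∃ W : ℂ → Matrix (Fin p ⊕ Fin q) (Fin p ⊕ Fin q) ℂ, LeftRegular W ∧ IsKappa W g) ↔
        (IsSchur g ∧ HasPseudocontinuation g ∧ LogDetIntegrable g) ∧
        ∀ S : ℂ → Matrix (Fin p ⊕ Fin q) (Fin p ⊕ Fin q) ℂ, ASingular S →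
          (∃ g' : ℂ → Matrix (Fin q) (Fin p) ℂ, IsSchur g' ∧
            ∀ z ∈ disc, (g' z * (S z).toBlocks₁₂ + (S z).toBlocks₂₂) * g z
              = g' z * (S z).toBlocks₁₁ + (S z).toBlocks₂₁) →
          ∃ C, ∀ z ∈ disc, S z = C) ∧
    (∀ (W : ℂ → Matrix (Fin p ⊕ Fin q) (Fin p ⊕ Fin q) ℂ)
      (g : ℂ → Matrix (Fin q) (Fin p) ℂ), JInner W → IsKappa W g →
      (∀ S : ℂ → Matrix (Fin p ⊕ Fin q) (Fin p ⊕ Fin q) ℂ, ASingular S →
        (JInner (fun z => W z * (S z)⁻¹) ↔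
          ∃ g' : ℂ → Matrix (Fin q) (Fin p) ℂ, IsSchur g' ∧
            ∀ z ∈ disc, (g' z * (S z).toBlocks₁₂ + (S z).toBlocks₂₂) * g z
              = g' z * (S z).toBlocks₁₁ + (S z).toBlocks₂₁)) ∧
      (∀ W' : ℂ → Matrix (Fin p ⊕ Fin q) (Fin p ⊕ Fin q) ℂ, JInner W' → IsKappa W' g →
        (LeftRegular W ↔ LeftRegular W')) ∧
      ∃ β : ℂ → ℂ, Inner β ∧
        LeftRegular (fun z => W z * diagFactor (Fin p) (Fin q) (β z)) ∧
        IsKappa (fun z => W z * diagFactor (Fin p) (Fin q) (β z)) (fun z => β z • g z)) ∧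
    ((∀ (S : ℂ → Matrix (Fin p ⊕ Fin q) (Fin p ⊕ Fin q) ℂ)
      (g : ℂ → Matrix (Fin q) (Fin p) ℂ), ASingular S → (¬ ∃ C, ∀ z ∈ disc, S z = C) →
      IsKappa S g →
      ¬ ∃ W : ℂ → Matrix (Fin p ⊕ Fin q) (Fin p ⊕ Fin q) ℂ, LeftRegular W ∧ IsKappa W g) ∧
    ∀ (i : Fin p) (k : Fin q),
      (∃ S : ℂ → Matrix (Fin p ⊕ Fin q) (Fin p ⊕ Fin q) ℂ,
        ASingular S ∧ IsKappa S (fun z => ((1 + z) / 2) • Matrix.single k i 1)) ∧
      ¬ ∃ W : ℂ → Matrix (Fin p ⊕ Fin q) (Fin p ⊕ Fin q) ℂ,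
        LeftRegular W ∧ IsKappa W (fun z => ((1 + z) / 2) • Matrix.single k i 1)) ∧
    (∀ g : ℂ → Matrix (Fin q) (Fin p) ℂ, (∀ z : ℂ, ‖z‖ ≤ 1 → AnalyticPt g z) →
      ((∃ W : ℂ → Matrix (Fin p ⊕ Fin q) (Fin p ⊕ Fin q) ℂ, LeftRegular W ∧ IsKappa W g) ↔
        HasPseudocontinuation g ∧
          ∀ ζ : ℂ, ‖ζ‖ = 1 → (1 - (g ζ).conjTranspose * g ζ).PosDef)) ∧
    ∀ (g : ℂ → Matrix (Fin q) (Fin p) ℂ) (x : Fin p → ℂ) (y : Fin q → ℂ) (s : ℂ → ℂ),
      star x ⬝ᵥ x = 1 → star y ⬝ᵥ y = 1 → DifferentiableOn ℂ s disc →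
      (∀ z ∈ disc, 0 ≤ (s z).re) →
      (∀ᵐ ζ ∂circleMeasure, ∃ L, HasBdryValue s ζ L ∧ L.re = 0) →
      (¬ ∃ c, ∀ z ∈ disc, s z = c) →
      (∀ z ∈ disc, 2 * (s z).re ≤
        ((1 + star y ⬝ᵥ (g z).mulVec x) / (1 - star y ⬝ᵥ (g z).mulVec x)).re) →
      ¬ ∃ W : ℂ → Matrix (Fin p ⊕ Fin q) (Fin p ⊕ Fin q) ℂ, LeftRegular W ∧ IsKappa W g := by
  refine ⟨fun g => ?_, fun W g hW hg => ⟨fun S hS => ?_, fun W' hW' hg' => ?_, ?_⟩,
    ⟨fun S g hS hc hg => ?_, fun i k => ⟨⟨SS i k, aSingular_SS i k, isKappa_SS i k⟩, ?_⟩⟩,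
    fun g hg => closed_iff hg,
    fun g x y s hx hy hsd hs0 hsb hsc h =>
      Pool.Agent.H2RJ.clark_scalar (nsq_one_of hx) (nsq_one_of hy) hsd hs0 hsb hsc h⟩
  · rw [Pool.Agent.H2RJ.kappa_lr_iff g, kappa_arov g]
  · exact Pool.Agent.H2RJ.div_iff hW hS hg
  · exact Pool.Agent.H2RJ.regular_iff hW hW' hg hg'
  · obtain ⟨β, hβ, hβ0, hreg⟩ := main_reg hW
    exact ⟨β, hβ, hreg, isKappa_mul_dg hβ hβ0 hg⟩
  · exact not_kappa hS hc hg
  · exact not_kappa (aSingular_SS i k) (not_const_SS i k) (isKappa_SS i k)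

end Pool.Agent.Results.MP_00ee12_an.KappaLeftRegular
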